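import Mathlib

namespace R12
open MvPolynomial Finset

variable {k : Type*} [Field k] {U : Type*} [Ring U] [Algebra k U]

/-- `monomial n ↦ e (n 0) * ... * e (n (d-1))` -/
noncomputable def bq {d : ℕ} (e : ℕ → U) : MvPolynomial (Fin d) k →ₗ[k] U :=
  (MvPolynomial.basisMonomials (Fin d) k).constr k (fun n => (List.ofFn fun i => e (n i)).prod)

theorem bq_monomial {d : ℕ} (e : ℕ → U) (n : Fin d →₀ ℕ) (c : k) :
    bq e (monomial n c) = c • (List.ofFn fun i => e (n i)).prod := by
  have h : (monomial n c : MvPolynomial (Fin d) k) = c • MvPolynomial.basisMonomials (Fin d) k n := by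
    rw [MvPolynomial.coe_basisMonomials, MvPolynomial.smul_monomial, smul_eq_mul, mul_one]
  rw [h, map_smul, bq, Module.Basis.constr_basis]

/-- commutator with a word -/
theorem comm_word {d : ℕ} (e : ℕ → U)
    (he : ∀ a b : ℕ, e a * e b - e b * e a = ((b : k) - a) • e (a + b - 1)) (m : ℕ)
    (n : Fin d → ℕ) :
    e m * (List.ofFn fun i => e (n i)).prod - (List.ofFn fun i => e (n i)).prod * e m =
      ∑ i, ((n i : k) - m) • (List.ofFn fun j => e (Function.update n i (m + n i - 1) j)).prod := by
  induction d with
  | zero => simp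
  | succ d ih =>
    have h0 := ih (Fin.tail n)
    rw [Fin.sum_univ_succ]
    simp only [List.ofFn_succ, List.prod_cons, Function.update_self]
    have h1 : ∀ j : Fin d, Function.update n 0 (m + n 0 - 1) j.succ = n j.succ := fun j =>
      Function.update_of_ne (Fin.succ_ne_zero j) _ _
    have h2 : ∀ i : Fin d, Function.update n i.succ (m + n i.succ - 1) 0 = n 0 := fun i =>
      Function.update_of_ne (Fin.succ_ne_zero i).symm _ _
    have h3 : ∀ i j : Fin d, Function.update n i.succ (m + n i.succ - 1) j.succ =
        Function.update (Fin.tail n) i (m + Fin.tail n i - 1) j := by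
      intro i j
      by_cases h : j = i
      · subst h; simp [Fin.tail]
      · rw [Function.update_of_ne (fun h' => h (Fin.succ_injective _ h')), Function.update_of_ne h]
        rfl
    simp only [h1, h2, h3]
    have h4 : (List.ofFn fun i : Fin d => e (Fin.tail n i)).prod =
      (List.ofFn fun i : Fin d => e (n i.succ)).prod := rfl
    rw [h4] at h0
    set w := (List.ofFn fun i : Fin d => e (n i.succ)).prod
    calc e m * (e (n 0) * w) - e (n 0) * w * e m
        = (e m * e (n 0) - e (n 0) * e m) * w + e (n 0) * (e m * w - w * e m) := by noncomm_ring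
      _ = _ := by
        rw [h0, he, smul_mul_assoc, Finset.mul_sum]
        congr 1
        refine Finset.sum_congr rfl fun i _ => ?_
        rw [mul_smul_comm]
        rfl

/-- the vector field `∑ X_i^m ∂_i` -/
noncomputable def V (k : Type*) [Field k] (d m : ℕ) :
    Derivation k (MvPolynomial (Fin d) k) (MvPolynomial (Fin d) k) :=
  MvPolynomial.mkDerivation k (fun i => X i ^ m)

noncomputable def q (k : Type*) [Field k] (d m : ℕ) : MvPolynomial (Fin d) k :=
  ∑ i, C (m : k) * X i ^ (m - 1)

theorem V_monomial (d m : ℕ) (n : Fin d →₀ ℕ) :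
    V k d m (monomial n (1 : k)) = ∑ i, C (n i : k) * monomial (n - Finsupp.single i 1 + Finsupp.single i m) (1 : k) := by
  rw [V, MvPolynomial.mkDerivation_monomial, one_smul, Finsupp.sum_fintype]
  · refine Finset.sum_congr rfl fun i _ => ?_
    rw [X_pow_eq_monomial, smul_eq_mul, monomial_mul, C_mul_monomial, mul_one]
  · intro i; simp

theorem comm_bq {d : ℕ} (e : ℕ → U)
    (he : ∀ a b : ℕ, e a * e b - e b * e a = ((b : k) - a) • e (a + b - 1)) (m : ℕ)
    (f : MvPolynomial (Fin d) k) :
    e m * bq e f - bq e f * e m = bq e (V k d m f - q k d m * f) := by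
  induction f using MvPolynomial.induction_on' with
  | monomial n c =>
    have hc : (monomial n c : MvPolynomial (Fin d) k) = c • monomial n (1 : k) := by
      rw [smul_monomial, smul_eq_mul, mul_one]
    rw [hc, map_smul, Derivation.map_smul, mul_smul_comm, mul_smul_comm, smul_mul_assoc, ← smul_sub,
      ← smul_sub, map_smul]
    congr 1
    rw [bq_monomial, one_smul, comm_word e he, V_monomial, q, Finset.sum_mul,
      ← Finset.sum_sub_distrib, map_sum]
    refine Finset.sum_congr rfl fun i _ => ?_
    rw [X_pow_eq_monomial, C_mul_monomial, C_mul_monomial, mul_one, mul_one, monomial_mul, mul_one,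
      map_sub, bq_monomial, bq_monomial, sub_smul]
    congr 1
    · by_cases h : n i = 0
      · rw [h]; simp
      · congr 4
        ext j
        congr 1
        by_cases hj : j = i
        · subst hj; simp; omega
        · rw [Function.update_of_ne hj]; simp [Ne.symm hj]
    · by_cases h : m = 0
      · subst h; simp
      · congr 4
        ext j
        congr 1
        by_cases hj : j = i
        · subst hj; simp; omega
        · rw [Function.update_of_ne hj]; simp [Ne.symm hj]
  | add f g hf hg =>
    rw [map_add, mul_add, add_mul, map_add, mul_add, add_sub_add_comm, hf, hg, ← map_add]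
    congr 1
    ring

/-- the discriminant -/
noncomputable def Dq (k : Type*) [Field k] (d : ℕ) : MvPolynomial (Fin d) k :=
  ∏ x ∈ (univ : Finset (Fin d × Fin d)).filter (fun x => x.1 ≠ x.2), (X x.1 - X x.2)

theorem V_prod_dvd {ι : Type*} (d m : ℕ) (s : Finset ι) (f : ι → MvPolynomial (Fin d) k)
    (h : ∀ i ∈ s, f i ∣ V k d m (f i)) : (∏ i ∈ s, f i) ∣ V k d m (∏ i ∈ s, f i) := by
  classical
  induction s using Finset.induction_on with
  | empty => simp
  | insert a s ha ih =>
    rw [Finset.prod_insert ha, Derivation.leibniz]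
    refine dvd_add ?_ ?_
    · rw [smul_eq_mul]
      exact mul_dvd_mul (dvd_refl (f a)) (ih fun i hi => h i (Finset.mem_insert_of_mem hi))
    · rw [smul_eq_mul, mul_comm (f a)]
      exact mul_dvd_mul (dvd_refl (∏ i ∈ s, f i)) (h a (Finset.mem_insert_self _ _))

theorem V_X (d m : ℕ) (i : Fin d) : V k d m (X i) = X i ^ m := by
  rw [V, MvPolynomial.mkDerivation_X]

theorem V_Dq_dvd (d m : ℕ) : Dq k d ∣ V k d m (Dq k d) := by
  refine V_prod_dvd d m _ _ fun x _ => ?_
  rw [map_sub, V_X, V_X]
  exact sub_dvd_pow_sub_pow _ _ _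

theorem V_Dq_pow (d m N : ℕ) (g : MvPolynomial (Fin d) k) :
    ∃ h, V k d m (Dq k d ^ N * g) - q k d m * (Dq k d ^ N * g) = Dq k d ^ N * h := by
  obtain ⟨r, hr⟩ : Dq k d ^ N ∣ V k d m (Dq k d ^ N) := by
    have := V_prod_dvd (k := k) d m (Finset.range N) (fun _ => Dq k d) fun _ _ => V_Dq_dvd d m
    simpa using this
  refine ⟨V k d m g + r * g - q k d m * g, ?_⟩
  rw [Derivation.leibniz, hr, smul_eq_mul, smul_eq_mul]
  ring

end R12
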