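import Pool.Agent.PRI65.Tr
import Pool.Agent.WittPrimes.Main
import Pool.Agent.R12.Bq

set_option autoImplicit false

namespace R12

open Pool.WittPrimes

attribute [local instance 100] LieRing.ofAssociativeRing

variable {k L : Type*} [Field k] [LieRing L] [LieAlgebra k L]
variable (D : WittData k L) (S : LieSubalgebra k L)
    (hS : S.toSubmodule = Submodule.span k (D.b '' {n | -1 ≤ n}))

noncomputable def fL {d : ℕ} : MvPolynomial (Fin d) k →ₐ[k] A k d := MvPolynomial.aeval (fun i => (Pool.WittPrimes.X i : A k d))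

theorem fL_monomial {d : ℕ} (n : Fin d →₀ ℕ) (c : k) : fL (MvPolynomial.monomial n c) = c • (mono (fun i => (n i : ℤ)) : A k d) := by
  rw [fL, MvPolynomial.aeval_monomial, Finsupp.prod_fintype _ _ (by simp), Algebra.smul_def]
  congr 1
  have h : ∀ i, (Pool.WittPrimes.X i : A k d) ^ n i = mono (Pi.single i (n i : ℤ)) := by
    intro i
    rw [← Xz_natCast]; rfl
  simp only [h]
  have h2 : ∀ s : Finset (Fin d), ∏ i ∈ s, (mono (Pi.single i (n i : ℤ)) : A k d) = mono (∑ i ∈ s, Pi.single i (n i : ℤ)) := by
    intro s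
    induction s using Finset.induction_on with
    | empty => simp
    | insert a s ha ih => rw [Finset.prod_insert ha, Finset.sum_insert ha, ih, mono_mul]
  rw [h2, Finset.univ_sum_single]

theorem iota_bq {d : ℕ} (f : MvPolynomial (Fin d) k) :
    iotaU S (PRI65.bq D S hS d f) = br (famU D).e (mono (fun _ => -1) * fL f) := by
  induction f using MvPolynomial.induction_on' with
  | monomial n c =>
    have hc : (MvPolynomial.monomial n c : MvPolynomial (Fin d) k) = c • MvPolynomial.monomial n (1 : k) := by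
      rw [MvPolynomial.smul_monomial, smul_eq_mul, mul_one]
    rw [hc, map_smul, map_smul, map_smul, mul_smul_comm, map_smul]
    congr 1
    rw [PRI65.bq_monomial, fL_monomial, one_smul, mono_mul, br_mono, map_list_prod, List.map_ofFn]
    congr 2
    ext i
    change iotaU S (eS D S hS ((n i : ℤ) - 1)) = UniversalEnvelopingAlgebra.ι k (D.b (-1 + (n i : ℤ)))
    rw [eS_of D S hS (by omega), iotaU_ι]
    congr 2
  | add f g hf hg => rw [map_add, map_add, hf, hg, map_add, mul_add, map_add]

theorem fL_Dq {d : ℕ} : fL (Dq k d) = (Dd d : A k d) := by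
  rw [Dq, Dd, map_prod]
  refine Finset.prod_congr rfl fun x _ => ?_
  rw [map_sub, fL, MvPolynomial.aeval_X, MvPolynomial.aeval_X]

theorem fL_surj {d : ℕ} {g : A k d} (hg : g ∈ Pol k d) : ∃ f, fL f = g := by
  rw [mem_Pol] at hg
  induction hg using Submodule.span_induction with
  | mem x hx =>
    obtain ⟨n, hn, rfl⟩ := hx
    refine ⟨MvPolynomial.monomial (Finsupp.equivFunOnFinite.symm fun i => (n i).toNat) 1, ?_⟩
    rw [fL_monomial, one_smul]
    congr 1
    ext i
    simpa using hn i
  | zero => exact ⟨0, map_zero _⟩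
  | add x y _ _ hx hy =>
    obtain ⟨a, rfl⟩ := hx
    obtain ⟨b, rfl⟩ := hy
    exact ⟨a + b, map_add _ _ _⟩
  | smul c x _ hx =>
    obtain ⟨a, rfl⟩ := hx
    exact ⟨c • a, map_smul _ _ _⟩

end R12
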