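import Pool.Agent.R12.Br
import Pool.Agent.WittPrimes.Main
import Pool.Agent.R12.Bq

set_option autoImplicit false

namespace R12

open Pool.WittPrimes

attribute [local instance 100] LieRing.ofAssociativeRing

variable {k L : Type*} [Field k] [LieRing L] [LieAlgebra k L]
variable (D : WittData k L) (S : LieSubalgebra k L)
    (hS : S.toSubmodule = Submodule.span k (D.b '' {n | -1 ≤ n}))

theorem bq_eq (d : ℕ) (f : MvPolynomial (Fin d) k) :
    PRI65.bq D S hS d f = bq (fun N => eS D S hS ((N : ℤ) - 1)) f := rfl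

theorem eS_nat_comm (a b : ℕ) : eS D S hS ((a : ℤ) - 1) * eS D S hS ((b : ℤ) - 1)
    - eS D S hS ((b : ℤ) - 1) * eS D S hS ((a : ℤ) - 1)
    = ((b : k) - a) • eS D S hS (((a + b - 1 : ℕ) : ℤ) - 1) := by
  have h := eS_comm D S hS ((a : ℤ) - 1) ((b : ℤ) - 1) (by omega) (by omega)
  rw [h]
  by_cases h0 : a + b = 0
  · obtain ⟨rfl, rfl⟩ : a = 0 ∧ b = 0 := by omega
    simp
  · have e1 : ((a : ℤ) - 1 + ((b : ℤ) - 1)) = ((a + b - 1 : ℕ) : ℤ) - 1 := by omega
    rw [e1]
    congr 1
    push_cast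
    ring

/-- the multiples of a power of the discriminant: stable under the adjoint action -/
theorem mem_all (M : Ideal (UniversalEnvelopingAlgebra k S)) {d K : ℕ}
    (hT : ∀ g : MvPolynomial (Fin d) k, PRI65.bq D S hS d (Dq k d ^ K * g) ∈ M)
    (x : UniversalEnvelopingAlgebra k S) (g : MvPolynomial (Fin d) k) :
    PRI65.bq D S hS d (Dq k d ^ K * g) * x ∈ M := by
  let T : Subalgebra k (UniversalEnvelopingAlgebra k S) :=
    { carrier := {y | ∀ x, (∀ g : MvPolynomial (Fin d) k, PRI65.bq D S hS d (Dq k d ^ K * g) * x ∈ M) →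
        ∀ g : MvPolynomial (Fin d) k, PRI65.bq D S hS d (Dq k d ^ K * g) * (y * x) ∈ M}
      mul_mem' := by
        intro a b ha hb x hx g
        rw [mul_assoc a b x]
        exact ha _ (hb x hx) g
      add_mem' := by
        intro a b ha hb x hx g
        rw [add_mul, mul_add]
        exact M.add_mem (ha x hx g) (hb x hx g)
      algebraMap_mem' := by
        intro c x hx g
        have := hx (c • g)
        rw [mul_smul_comm, map_smul, smul_mul_assoc] at this
        rwa [← Algebra.smul_def, mul_smul_comm] }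
  have hT' := eS_induction D S hS T (by
    intro n hn x hx g
    obtain ⟨m, rfl⟩ := exists_nat_of_le hn
    have h1 := comm_bq (fun N => eS D S hS ((N : ℤ) - 1)) (eS_nat_comm D S hS) m (Dq k d ^ K * g)
    rw [← bq_eq, ← bq_eq] at h1
    obtain ⟨h, hh⟩ := V_Dq_pow (k := k) d m K g
    rw [hh] at h1
    have h2 : PRI65.bq D S hS d (Dq k d ^ K * g) * (eS D S hS ((m : ℤ) - 1) * x)
        = eS D S hS ((m : ℤ) - 1) * (PRI65.bq D S hS d (Dq k d ^ K * g) * x)
          - PRI65.bq D S hS d (Dq k d ^ K * h) * x := by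
      rw [← h1]; noncomm_ring
    rw [h2]
    exact M.sub_mem (M.mul_mem_left _ (hx g)) (hx h)) x
  have := hT' 1 (fun g => by rw [mul_one]; exact hT g) g
  rwa [mul_one] at this

/-- The discriminant ideal cannot lie in `M`: contradiction with the minimality of `d`. -/
theorem contra [CharZero k] {d M0 K : ℕ} (M : Ideal (UniversalEnvelopingAlgebra k S))
    (Q : TwoSidedIdeal (UniversalEnvelopingAlgebra k S)) (hQ : ∀ a, a ∈ Q ↔ ∀ x, a * x ∈ M)
    (P : TwoSidedIdeal (UniversalEnvelopingAlgebra k L)) (hP : IsPrimeI P)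
    (hr : P.comap (iotaU S) = Q) (hO : OO (famU D) P (d + 1) M0)
    (hN : ∀ M', ¬ OO (famU D) P d M')
    (hT : ∀ g : MvPolynomial (Fin d) k, PRI65.bq D S hS d (Dq k d ^ K * g) ∈ M) : False := by
  have h1 : ∀ g : MvPolynomial (Fin d) k,
      br (famU D).e (mono (fun _ => -1) * (Dd d ^ K * fL g)) ∈ P := by
    intro g
    have h2 : PRI65.bq D S hS d (Dq k d ^ K * g) ∈ Q := (hQ _).2 fun x => mem_all D S hS M hT x g
    rw [← hr, TwoSidedIdeal.mem_comap, iota_bq, map_mul fL, map_pow fL,
      fL_Dq] at h2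
    exact h2
  have h3 : (1 : UniversalEnvelopingAlgebra k L) ∈ P := by
    refine extend_poly (famU D) P hP hO hN 1 K fun g hg => ?_
    obtain ⟨f, hf⟩ := fL_surj (Subalgebra.mul_mem _ (Subalgebra.pow_mem _ (E_mem_Pol (k := k) (p := d)) (K + 1)) hg)
    have h4 := h1 f
    rw [hf] at h4
    rw [one_mul]
    convert h4 using 2
    have h5 : (mono (fun _ => -1) : A k d) * E d = 1 := by
      rw [E, mono_mul, ← mono_zero]
      congr 1
    calc E d ^ K * Dd d ^ K * g = 1 * (E d ^ K * Dd d ^ K * g) := (one_mul _).symm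
      _ = mono (fun _ => -1) * (Dd d ^ K * (E d ^ (K + 1) * g)) := by
        rw [← h5]; ring
  exact hP.1 (eq_top_of_one_mem P h3)

end R12
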