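import Mathlib

namespace R12
open MvPolynomial Finset

theorem copr {k : Type*} [Field k] (d N : ℕ) (c : Fin (d + 1) → k) (hc : Function.Injective c) :
    (1 : MvPolynomial (Fin d) k) ∈
      Ideal.span (Set.range fun j : Fin (d + 1) => (∏ i, (X i + C (c j) : MvPolynomial (Fin d) k)) ^ N) := by
  by_contra h
  have hne : Ideal.span (Set.range fun j : Fin (d + 1) =>
      (∏ i, (X i + C (c j) : MvPolynomial (Fin d) k)) ^ N) ≠ ⊤ := by
    intro h1; apply h; rw [h1]; trivial
  obtain ⟨m, hm, hle⟩ := Ideal.exists_le_maximal _ hne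
  have hp : m.IsPrime := hm.isPrime
  have h1 : ∀ j : Fin (d + 1), ∃ i : Fin d, (X i + C (c j) : MvPolynomial (Fin d) k) ∈ m := by
    intro j
    have h2 : (∏ i, (X i + C (c j) : MvPolynomial (Fin d) k)) ^ N ∈ m :=
      hle (Ideal.subset_span ⟨j, rfl⟩)
    have h3 := hp.mem_of_pow_mem N h2
    obtain ⟨i, -, hi⟩ := (Ideal.IsPrime.prod_mem_iff (hp := hp)).1 h3
    exact ⟨i, hi⟩
  choose f hf using h1
  obtain ⟨a, b, hab, hfab⟩ := Fintype.exists_ne_map_eq_of_card_lt f (by simp)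
  have h4 := m.sub_mem (hf a) (hf b)
  rw [hfab] at h4
  have h5 : (C (c a - c b) : MvPolynomial (Fin d) k) ∈ m := by
    rw [C_sub]; convert h4 using 1; ring
  apply hp.ne_top
  apply m.eq_top_of_isUnit_mem h5
  apply (IsUnit.mk0 _ _).map
  exact sub_ne_zero.2 (fun h => hab (hc h))

end R12
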