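import Pool.Agent.WittPrimes.Main

set_option autoImplicit false

/-!
Local simple modules of the Witt algebra stay simple over the positive part.
-/

namespace R12

open Pool.WittPrimes hiding X
open Polynomial

attribute [local instance 100] LieRing.ofAssociativeRing

variable {k L : Type*} [Field k] [LieRing L] [LieAlgebra k L]
variable (D : WittData k L)

/-- `f ↦ f t^{n+1} d/dt` in the enveloping algebra -/
noncomputable def ev (n : ℤ) : k[X] →ₗ[k] UniversalEnvelopingAlgebra k L :=
  Polynomial.lsum fun i => LinearMap.toSpanSingleton k _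
    (UniversalEnvelopingAlgebra.ι k (D.b (n + i)))

theorem ev_sum (n : ℤ) (f : k[X]) :
    ev D n f = f.sum fun i a => a • UniversalEnvelopingAlgebra.ι k (D.b (n + i)) := by
  rw [ev, Polynomial.lsum_apply]
  rfl

theorem ev_monomial (n : ℤ) (i : ℕ) (a : k) :
    ev D n (monomial i a) = a • UniversalEnvelopingAlgebra.ι k (D.b (n + i)) := by
  rw [ev_sum, Polynomial.sum_monomial_index _ _ (by simp)]

theorem ev_C (n : ℤ) (a : k) : ev D n (C a) = a • UniversalEnvelopingAlgebra.ι k (D.b n) := by
  rw [← monomial_zero_left, ev_monomial]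
  simp

theorem ev_X_mul (n : ℤ) (h : k[X]) : ev D n (X * h) = ev D (n + 1) h := by
  induction h using Polynomial.induction_on' with
  | add p q hp hq => rw [mul_add, map_add, map_add, hp, hq]
  | monomial i a =>
    rw [X_mul_monomial, ev_monomial, ev_monomial]
    congr 3
    push_cast
    ring

theorem comm_ev (m n : ℤ) (h : k[X]) :
    UniversalEnvelopingAlgebra.ι k (D.b m) * ev D n h - ev D n h * UniversalEnvelopingAlgebra.ι k (D.b m)
      = ev D (n + m) (((n : k) - m) • h + X * derivative h) := by
  induction h using Polynomial.induction_on' with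
  | add p q hp hq =>
    rw [map_add, mul_add, add_mul, add_sub_add_comm, hp, hq, ← map_add]
    congr 1
    rw [derivative_add, smul_add, mul_add]
    abel
  | monomial i a =>
    have h1 := (famU D).comm m (n + i)
    change UniversalEnvelopingAlgebra.ι k (D.b m) * UniversalEnvelopingAlgebra.ι k (D.b (n + i)) -
      UniversalEnvelopingAlgebra.ι k (D.b (n + i)) * UniversalEnvelopingAlgebra.ι k (D.b m) =
      (((n + i : ℤ) : k) - m) • UniversalEnvelopingAlgebra.ι k (D.b (m + (n + i))) at h1
    have h2 : (X : k[X]) * derivative (monomial i a) = monomial i (a * i) := by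
      rw [derivative_monomial]
      by_cases hi : i = 0
      · subst hi; simp
      · rw [X_mul_monomial, Nat.sub_add_cancel (Nat.pos_of_ne_zero hi)]
    rw [h2, ev_monomial, map_add (ev D (n + m)), map_smul (ev D (n + m)), ev_monomial, ev_monomial,
      mul_smul_comm, smul_mul_assoc, ← smul_sub, h1, smul_smul, smul_smul, ← add_smul]
    have h3 : m + (n + (i : ℤ)) = n + m + i := by ring
    rw [h3]
    congr 1
    push_cast
    ring

/-- `f^r W u ⊆ N` for some `r` -/
def Sm (D : WittData k L) (N : Ideal (UniversalEnvelopingAlgebra k L)) (f : k[X])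
    (u : UniversalEnvelopingAlgebra k L) : Prop :=
  ∃ r : ℕ, ∀ (h : k[X]) (n : ℤ), ev D n (f ^ r * h) * u ∈ N

theorem Sm.mono {D : WittData k L} {N : Ideal (UniversalEnvelopingAlgebra k L)} {f : k[X]}
    {u : UniversalEnvelopingAlgebra k L} {r r' : ℕ} (hr : r ≤ r')
    (H : ∀ (h : k[X]) (n : ℤ), ev D n (f ^ r * h) * u ∈ N) :
    ∀ (h : k[X]) (n : ℤ), ev D n (f ^ r' * h) * u ∈ N := by
  obtain ⟨t, rfl⟩ := Nat.exists_eq_add_of_le hr
  intro h n
  rw [pow_add, mul_assoc]
  exact H _ _

theorem sm_all {D : WittData k L} {N : Ideal (UniversalEnvelopingAlgebra k L)} {f : k[X]} (h1 : Sm D N f 1)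
    (u : UniversalEnvelopingAlgebra k L) : Sm D N f u := by
  let T : Subalgebra k (UniversalEnvelopingAlgebra k L) :=
    { carrier := {y | ∀ x, Sm D N f x → Sm D N f (y * x)}
      mul_mem' := by
        intro a b ha hb x hx
        rw [mul_assoc]
        exact ha _ (hb x hx)
      add_mem' := by
        intro a b ha hb x hx
        obtain ⟨r, hr⟩ := ha x hx
        obtain ⟨s, hs⟩ := hb x hx
        refine ⟨max r s, fun h n => ?_⟩
        rw [add_mul, mul_add]
        exact N.add_mem (Sm.mono (le_max_left _ _) hr h n) (Sm.mono (le_max_right _ _) hs h n)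
      algebraMap_mem' := by
        intro c x hx
        obtain ⟨r, hr⟩ := hx
        refine ⟨r, fun h n => ?_⟩
        rw [← Algebra.smul_def, mul_smul_comm, Algebra.smul_def]
        exact N.mul_mem_left _ (hr h n) }
  have hT : (⊤ : Subalgebra k (UniversalEnvelopingAlgebra k L)) ≤ T := by
    rw [← (famU D).gen]
    apply Algebra.adjoin_le
    rintro _ ⟨m, rfl⟩ x ⟨r, hr⟩
    refine ⟨r + 1, fun h n => ?_⟩
    change ev D n (f ^ (r + 1) * h) * (UniversalEnvelopingAlgebra.ι k (D.b m) * x) ∈ N
    have h2 := comm_ev D m n (f ^ (r + 1) * h)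
    have h3 : ev D n (f ^ (r + 1) * h) * (UniversalEnvelopingAlgebra.ι k (D.b m) * x) =
        UniversalEnvelopingAlgebra.ι k (D.b m) * (ev D n (f ^ (r + 1) * h) * x) -
        ev D (n + m) (((n : k) - m) • (f ^ (r + 1) * h) + X * derivative (f ^ (r + 1) * h)) * x := by
      rw [← h2]; noncomm_ring
    rw [h3]
    refine N.sub_mem (N.mul_mem_left _ (Sm.mono (Nat.le_succ r) hr h n)) ?_
    have h4 : ((n : k) - m) • (f ^ (r + 1) * h) + X * derivative (f ^ (r + 1) * h) =
        f ^ r * (((n : k) - m) • (f * h) + X * ((C ((r : k) + 1)) * derivative f * h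
          + f * derivative h)) := by
      rw [derivative_mul, derivative_pow, smul_eq_C_mul, smul_eq_C_mul, Nat.add_sub_cancel]
      push_cast
      ring
    rw [h4]
    exact hr _ _
  have := hT (Algebra.mem_top (x := u)) 1 h1
  rwa [mul_one] at this

theorem e_mod {D : WittData k L} (S : LieSubalgebra k L)
    (hS : S.toSubmodule = Submodule.span k (D.b '' {n | -1 ≤ n})) {N : Ideal (UniversalEnvelopingAlgebra k L)} {f : k[X]} (hf : f.coeff 0 ≠ 0)
    {y : UniversalEnvelopingAlgebra k L} (hy : Sm D N f y) (m : ℤ) :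
    ∃ s : UniversalEnvelopingAlgebra k S,
      UniversalEnvelopingAlgebra.ι k (D.b m) * y - iotaU S s * y ∈ N := by
  obtain ⟨r, hr⟩ := hy
  let Z : Submodule k (UniversalEnvelopingAlgebra k L) :=
    { carrier := {a | ∃ s : UniversalEnvelopingAlgebra k S, a * y - iotaU S s * y ∈ N}
      add_mem' := by
        rintro a b ⟨s, hs⟩ ⟨t, ht⟩
        refine ⟨s + t, ?_⟩
        rw [map_add, add_mul, add_mul, add_sub_add_comm]
        exact N.add_mem hs ht
      zero_mem' := ⟨0, by simp⟩
      smul_mem' := by
        rintro c a ⟨s, hs⟩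
        refine ⟨c • s, ?_⟩
        rw [map_smul, smul_mul_assoc, smul_mul_assoc, ← smul_sub, Algebra.smul_def]
        exact N.mul_mem_left _ hs }
  have hg0 : (f ^ r).coeff 0 ≠ 0 := by
    rw [coeff_zero_eq_eval_zero, eval_pow, ← coeff_zero_eq_eval_zero]
    exact pow_ne_zero _ hf
  suffices H : ∀ (t : ℕ) (m : ℤ), -1 - (t : ℤ) ≤ m → UniversalEnvelopingAlgebra.ι k (D.b m) ∈ Z from
    H (-1 - m).toNat m (by omega)
  intro t
  induction t with
  | zero =>
    intro m hm
    have hm' : -1 ≤ m := by simpa using hm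
    refine ⟨eS D S hS m, ?_⟩
    rw [eS_of D S hS hm', iotaU_ι, sub_self]
    exact N.zero_mem
  | succ t ih =>
    intro m hm
    by_cases hm' : -1 - (t : ℤ) ≤ m
    · exact ih m hm'
    have h1 : ev D (m + 1) (divX (f ^ r)) ∈ Z := by
      rw [ev_sum]
      refine Submodule.sum_mem _ fun i _ => Submodule.smul_mem _ _ (ih _ ?_)
      push_cast at hm hm' ⊢
      omega
    have h2 : ev D m (f ^ r) ∈ Z := ⟨0, by
      rw [map_zero, zero_mul, sub_zero]
      have := hr 1 m
      rwa [mul_one] at this⟩
    have h3 : ev D m (f ^ r) = ev D (m + 1) (divX (f ^ r)) +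
        (f ^ r).coeff 0 • UniversalEnvelopingAlgebra.ι k (D.b m) := by
      conv_lhs => rw [← X_mul_divX_add (f ^ r)]
      rw [map_add, ev_X_mul, ev_C]
    have h4 : (f ^ r).coeff 0 • UniversalEnvelopingAlgebra.ι k (D.b m) ∈ Z := by
      have := Z.sub_mem h2 h1
      rwa [h3, add_sub_cancel_left] at this
    have h5 := Z.smul_mem ((f ^ r).coeff 0)⁻¹ h4
    rwa [smul_smul, inv_mul_cancel₀ hg0, one_smul] at h5

theorem mod_all {D : WittData k L} (S : LieSubalgebra k L)
    (hS : S.toSubmodule = Submodule.span k (D.b '' {n | -1 ≤ n})) {N : Ideal (UniversalEnvelopingAlgebra k L)} {f : k[X]} (hf : f.coeff 0 ≠ 0)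
    (h1 : Sm D N f 1) (u y : UniversalEnvelopingAlgebra k L) :
    ∃ s : UniversalEnvelopingAlgebra k S, u * y - iotaU S s * y ∈ N := by
  let T : Subalgebra k (UniversalEnvelopingAlgebra k L) :=
    { carrier := {u | ∀ y, ∃ s : UniversalEnvelopingAlgebra k S, u * y - iotaU S s * y ∈ N}
      mul_mem' := by
        intro a b ha hb y
        obtain ⟨s, hs⟩ := hb y
        obtain ⟨t, ht⟩ := ha (iotaU S s * y)
        refine ⟨t * s, ?_⟩
        have h2 : a * b * y - iotaU S (t * s) * y = a * (b * y - iotaU S s * y) +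
            (a * (iotaU S s * y) - iotaU S t * (iotaU S s * y)) := by
          rw [map_mul]; noncomm_ring
        rw [h2]
        exact N.add_mem (N.mul_mem_left _ hs) ht
      add_mem' := by
        intro a b ha hb y
        obtain ⟨s, hs⟩ := ha y
        obtain ⟨t, ht⟩ := hb y
        refine ⟨s + t, ?_⟩
        rw [map_add, add_mul, add_mul, add_sub_add_comm]
        exact N.add_mem hs ht
      algebraMap_mem' := by
        intro c y
        refine ⟨algebraMap k _ c, ?_⟩
        rw [AlgHom.commutes, sub_self]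
        exact N.zero_mem }
  have hT : (⊤ : Subalgebra k (UniversalEnvelopingAlgebra k L)) ≤ T := by
    rw [← (famU D).gen]
    apply Algebra.adjoin_le
    rintro _ ⟨m, rfl⟩ y
    exact e_mod S hS hf (sm_all h1 y) m
  exact hT (Algebra.mem_top (x := u)) y

/-- A simple `U(W)`-module with a vector killed by `f W` (`f` a polynomial, `f(0) ≠ 0`) stays
simple over `U(S)`, and its annihilator restricts to its annihilator. -/
theorem local_prim (D : WittData k L) (S : LieSubalgebra k L)
    (hS : S.toSubmodule = Submodule.span k (D.b '' {n | -1 ≤ n})) {N : Ideal (UniversalEnvelopingAlgebra k L)} (hN : N.IsMaximal) {f : k[X]}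
    (hf : f.coeff 0 ≠ 0)
    (hl : ∀ n : ℤ, (f.sum fun i a => a • UniversalEnvelopingAlgebra.ι k (D.b (n + i))) ∈ N) :
    (N.comap (iotaU S)).IsMaximal ∧
      ∀ a, (∀ x, a * x ∈ N.comap (iotaU S)) ↔ ∀ y, iotaU S a * y ∈ N := by
  have h1 : Sm D N f 1 := by
    refine ⟨1, fun h n => ?_⟩
    rw [pow_one, mul_one]
    induction h using Polynomial.induction_on' generalizing n with
    | add p q hp hq => rw [mul_add, map_add]; exact N.add_mem (hp n) (hq n)
    | monomial i a =>
      induction i generalizing n with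
      | zero =>
        rw [monomial_zero_left, mul_comm, ← smul_eq_C_mul, map_smul, Algebra.smul_def]
        refine N.mul_mem_left _ ?_
        rw [ev_sum]
        exact hl n
      | succ i ih =>
        rw [← X_mul_monomial, mul_left_comm, ev_X_mul]
        exact ih _
  have hmod := mod_all S hS hf h1
  have hmax := Ideal.isMaximal_def.1 hN
  refine ⟨?_, fun a => ⟨fun h y => ?_, fun h x => ?_⟩⟩
  · refine ⟨⟨?_, fun J hJ => ?_⟩⟩
    · intro h
      apply hN.ne_top
      rw [Ideal.eq_top_iff_one]
      have h2 : (1 : UniversalEnvelopingAlgebra k S) ∈ N.comap (iotaU S) := by rw [h]; trivial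
      rwa [Ideal.mem_comap, map_one] at h2
    · obtain ⟨hle, x, hxJ, hxN⟩ := SetLike.lt_iff_le_and_exists.1 hJ
      rw [Ideal.mem_comap] at hxN
      have h3 : N ⊔ Ideal.span {iotaU S x} = ⊤ := by
        apply hmax.2
        refine lt_of_le_of_ne le_sup_left fun h => hxN ?_
        rw [h]
        exact Ideal.mem_sup_right (Ideal.subset_span rfl)
      have h4 : (1 : UniversalEnvelopingAlgebra k L) ∈ N ⊔ Ideal.span {iotaU S x} := by
        rw [h3]; trivial
      obtain ⟨n, hn, z, hz, h5⟩ := Submodule.mem_sup.1 h4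
      obtain ⟨u, rfl⟩ := Submodule.mem_span_singleton.1 hz
      obtain ⟨s, hs⟩ := hmod u (iotaU S x)
      rw [Ideal.eq_top_iff_one]
      have h6 : (1 : UniversalEnvelopingAlgebra k S) - s * x ∈ J := by
        apply hle
        rw [Ideal.mem_comap, map_sub, map_one, map_mul, ← h5, smul_eq_mul]
        have h7 : n + u * iotaU S x - iotaU S s * iotaU S x =
          n + (u * iotaU S x - iotaU S s * iotaU S x) := by abel
        rw [h7]
        exact N.add_mem hn hs
      have h8 := J.add_mem h6 (J.mul_mem_left s hxJ)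
      rwa [sub_add_cancel] at h8
  · obtain ⟨s, hs⟩ := hmod y 1
    rw [mul_one, mul_one] at hs
    have h2 : iotaU S a * y = iotaU S a * (y - iotaU S s) + iotaU S (a * s) := by
      rw [map_mul]; noncomm_ring
    rw [h2]
    exact N.add_mem (N.mul_mem_left _ hs) (h s)
  · rw [Ideal.mem_comap, map_mul]
    exact h _

/-- the same for every nonzero polynomial `f` (powers of `t` do not matter) -/
theorem local_prim' (D : WittData k L) (S : LieSubalgebra k L)
    (hS : S.toSubmodule = Submodule.span k (D.b '' {n | -1 ≤ n}))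
    {N : Ideal (UniversalEnvelopingAlgebra k L)} (hN : N.IsMaximal) {f : k[X]} (hf : f ≠ 0)
    (hl : ∀ n : ℤ, (f.sum fun i a => a • UniversalEnvelopingAlgebra.ι k (D.b (n + i))) ∈ N) :
    (N.comap (iotaU S)).IsMaximal ∧
      ∀ a, (∀ x, a * x ∈ N.comap (iotaU S)) ↔ ∀ y, iotaU S a * y ∈ N := by
  induction hd : f.natDegree using Nat.strong_induction_on generalizing f with
  | _ d ih =>
    by_cases h0 : f.coeff 0 = 0
    · have h1 : X * divX f = f := by
        have := X_mul_divX_add f
        rwa [h0, C_0, add_zero] at this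
      have h2 : divX f ≠ 0 := by
        intro h; apply hf; rw [← h1, h, mul_zero]
      have h3 : (divX f).natDegree < d := by
        rw [← hd, ← h1, natDegree_mul X_ne_zero h2, natDegree_X, h1]
        omega
      refine ih _ h3 h2 (fun n => ?_) rfl
      have h4 := hl (n - 1)
      rw [← ev_sum, ← h1, ev_X_mul, sub_add_cancel, ev_sum] at h4
      exact h4
    · exact local_prim D S hS hN h0 hl

end R12
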