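import Pool.Agent.R12.Sh
import Pool.Agent.R12.Contr
import Pool.Agent.R12V.Over
import Pool.Agent.R12V.Rad
import Pool.Agent.R12V.Word
import Pool.Agent.PRI98.Asm2

set_option autoImplicit false

/-!
Local simple modules of the positive part come from local simple modules of the Witt algebra.
-/

namespace R12

open Pool.WittPrimes hiding X
open Polynomial

attribute [local instance 100] LieRing.ofAssociativeRing

variable {k L : Type*} [Field k] [LieRing L] [LieAlgebra k L]

theorem iota_phi (D : WittData k L) (S : LieSubalgebra k L)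
    (hS : S.toSubmodule = Submodule.span k (D.b '' {n | -1 ≤ n})) (f : k[X]) (j : ℕ) :
    iotaU S (PRI65.phi D S hS (f * X ^ j)) = ev D ((j : ℤ) - 1) f := by
  induction f using Polynomial.induction_on' with
  | add p q hp hq => rw [add_mul, map_add, map_add, hp, hq, map_add]
  | monomial i a =>
    rw [monomial_mul_X_pow, PRI65.phi_monomial, map_smul, ev_monomial]
    have h : (((i + j : ℕ) : ℤ) - 1) = (j : ℤ) - 1 + i := by push_cast; ring
    rw [h, eS_of D S hS (by omega), iotaU_ι]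

theorem local_bij [CharZero k] (D : WittData k L) (S : LieSubalgebra k L)
    (hS : S.toSubmodule = Submodule.span k (D.b '' {n | -1 ≤ n}))
    (M : Ideal (UniversalEnvelopingAlgebra k S)) (hM : M.IsMaximal) (f : k[X]) (hf : f ≠ 0)
    (hl : ∀ h : k[X], PRI65.phi D S hS (f * h) ∈ M) :
    ∃ N : Ideal (UniversalEnvelopingAlgebra k L), N.IsMaximal ∧
      (∃ f' : k[X], f' ≠ 0 ∧ ∀ n : ℤ, ev D n f' ∈ N) ∧
      ∀ a, (∀ x, a * x ∈ M) ↔ ∀ y, iotaU S a * y ∈ N := by
  obtain ⟨P, hP, hPQ⟩ := (main D S hS).2.1.surjOn (PRI65.annI_prime M hM)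
  have hPQ' : P.comap (iotaU S) = PRI65.annI M := hPQ
  have hQ : ∀ a, a ∈ PRI65.annI M ↔ ∀ x, a * x ∈ M := PRI65.mem_annI M
  -- `P` satisfies some `OO`
  obtain ⟨K, hK⟩ := R12V.rad (d := f.natDegree + 1) f hf (Nat.lt_succ_self _) (f.natDegree + 1)
  have hT : ∀ g : MvPolynomial (Fin (f.natDegree + 1)) k,
      PRI65.bq D S hS (f.natDegree + 1) (Dq k (f.natDegree + 1) ^ K * g) ∈ M := by
    intro g
    obtain ⟨r, hr⟩ := (Ideal.mem_span_range_iff_exists_fun).1 hK
    rw [← hr, Finset.sum_mul, map_sum]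
    refine M.sum_mem fun i _ => ?_
    have h1 : r i * (Polynomial.aeval (MvPolynomial.X i : MvPolynomial (Fin (f.natDegree + 1)) k) f)
        ^ (f.natDegree + 1) * g = (Polynomial.aeval (MvPolynomial.X i) f) ^ (f.natDegree + 1) *
        (r i * g) := by ring
    rw [h1]
    exact R12V.word D S hS M f hl i _
  have h1 : br (famU D).e (Dd (f.natDegree + 1) ^ K : A k (f.natDegree + 1)) ∈ P := by
    have h2 : PRI65.bq D S hS (f.natDegree + 1) (Dq k (f.natDegree + 1) ^ K *
        ∏ i : Fin (f.natDegree + 1), (MvPolynomial.X i : MvPolynomial _ k) ^ 1) ∈ PRI65.annI M :=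
      (hQ _).2 fun x => mem_all D S hS M hT x _
    rw [← hPQ', TwoSidedIdeal.mem_comap, iota_bq, map_mul fL, map_pow fL, fL_Dq,
      PRI98.fL_prod_X, pow_one] at h2
    have h5 : (mono (fun _ => -1) : A k (f.natDegree + 1)) * E (f.natDegree + 1) = 1 := by
      rw [E, mono_mul, ← mono_zero]
      congr 1
    have h6 : (mono (fun _ => -1) : A k (f.natDegree + 1)) *
        (Dd (f.natDegree + 1) ^ K * E (f.natDegree + 1)) = Dd (f.natDegree + 1) ^ K := by
      rw [mul_left_comm, h5, mul_one]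
    rwa [h6] at h2
  obtain ⟨M', hM'⟩ := fact1' (famU D) P _ K h1
  obtain ⟨d, ⟨M0, hO⟩, hO'⟩ := exists_min_OO (famU D) P hP ⟨_, M', hM'⟩
  obtain ⟨c, hc⟩ := PRI98.exists_c D S hS M (PRI65.annI M) hQ P hP hPQ' hO hO'
  obtain ⟨N, hN, hPN, hN1, -⟩ := R12V.over_step D S hS M hM (PRI65.annI M) hQ P hP hPQ' c hc
  refine ⟨N, hN, ⟨f.comp (X - C c), ?_, fun n => ?_⟩, fun a => ?_⟩
  · intro h
    apply hf
    have h2 : (f.comp (X - C c)).comp (X + C c) = f := by
      rw [comp_assoc, sub_comp, X_comp, C_comp, add_sub_cancel_right, comp_X]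
    rw [← h2, h, zero_comp]
  · refine ext_ev D hN P hPN hO hO' _ (fun n hn => ?_) n
    obtain ⟨j, rfl⟩ := exists_nat_of_le hn
    rw [← iota_phi D S hS]
    apply hN1
    rw [PRI65.th_phi, mul_comp, comp_assoc, sub_comp, X_comp, C_comp, add_sub_cancel_right, comp_X]
    exact hl _
  · rw [← hQ, ← hPQ', TwoSidedIdeal.mem_comap, hPN]

end R12
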