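import Pool.Agent.PRI98.RedL
import Pool.Agent.R12.Loc

set_option autoImplicit false

/-!
Extension from the positive part to the whole Witt algebra of the vanishing of `f e_n`.
-/

namespace R12

open Pool.WittPrimes hiding X
open MulOpposite

attribute [local instance 100] LieRing.ofAssociativeRing

section fam

variable {k : Type*} [Field k] {p d : ℕ}
variable {U : Type*} [Ring U] [Algebra k U] (W : WittFam k U)

theorem shift_left {K : TwoSidedIdeal U} {M : ℕ} (hO : OO W K (d + 1) M) :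
    ∃ (L m : ℕ) (c : ℕ → A k d), c 0 = E d ^ (2 * L) ∧
      ∀ (n : ℤ) (g : A k d),
        ∑ l ∈ Finset.range (m + 1), br W.e (c l * Dd d ^ L * g) * W.e (n + l) ∈ K := by
  obtain ⟨L, m, c, hc0, -, h⟩ := shift (PRI98.opFam W) K.op (PRI98.OO_op W hO) 1
  refine ⟨L, m, fun l => sub (Fin.revPerm : Equiv.Perm (Fin d)) (c l), ?_, fun n g => ?_⟩
  · change sub _ (c 0) = _
    rw [hc0, map_pow, sub_E]
  · have h1 := h n (sub (Fin.revPerm : Equiv.Perm (Fin d)) g)
    rw [TwoSidedIdeal.mem_op_iff, Finset.unop_sum] at h1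
    have h2 := PRI98.smul_mem_I' K (-((-1 : k) ^ d)) h1
    rw [Finset.smul_sum] at h2
    convert h2 using 1
    refine Finset.sum_congr rfl fun l _ => ?_
    rw [PRI98.br_op, mul_one, map_mul (sub _), map_mul (sub _), map_pow (sub _), sub_Dd,
      PRI98.sub_rev_rev]
    change _ = _ • unop (-(op (W.e (n + l))) * _)
    rw [neg_mul, unop_neg, mul_smul_comm, unop_smul, unop_mul, unop_op, unop_op, neg_smul,
      smul_neg, neg_neg, smul_smul, PRI98.neg_one_sq, one_smul]

theorem stab {N : Ideal U} {L : ℕ} {y : U} (h : ∀ g : A k d, br W.e (Dd d ^ L * g) * y ∈ N)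
    (u : U) : ∀ g : A k d, br W.e (Dd d ^ L * g) * (u * y) ∈ N := by
  let T : Subalgebra k U :=
    { carrier := {u | ∀ y, (∀ g : A k d, br W.e (Dd d ^ L * g) * y ∈ N) →
        ∀ g : A k d, br W.e (Dd d ^ L * g) * (u * y) ∈ N}
      mul_mem' := by
        intro a b ha hb x hx g
        rw [mul_assoc a b x]
        exact ha _ (hb x hx) g
      add_mem' := by
        intro a b ha hb x hx g
        rw [add_mul, mul_add]
        exact N.add_mem (ha x hx g) (hb x hx g)
      algebraMap_mem' := by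
        intro c x hx g
        have := hx (c • g)
        rw [mul_smul_comm, map_smul, smul_mul_assoc] at this
        rwa [← Algebra.smul_def, mul_smul_comm] }
  have hT : (⊤ : Subalgebra k U) ≤ T := by
    rw [← W.gen]
    apply Algebra.adjoin_le
    rintro _ ⟨m, rfl⟩ x hx g
    have h1 := ad_br W m (Dd d ^ L * g)
    obtain ⟨q, hq⟩ := Lop_Dd m L g
    rw [hq] at h1
    have h2 : br W.e (Dd d ^ L * g) * (W.e m * x) =
        W.e m * (br W.e (Dd d ^ L * g) * x) - br W.e (Dd d ^ L * q) * x := by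
      rw [← h1]; noncomm_ring
    rw [h2]
    exact N.sub_mem (N.mul_mem_left _ (hx g)) (hx q)
  exact hT (Algebra.mem_top (x := u)) y h

theorem torsion_free {N : Ideal U} (hN : N.IsMaximal) (P : TwoSidedIdeal U)
    (hP : ∀ a, a ∈ P ↔ ∀ x, a * x ∈ N) (hO : ∀ M', ¬ OO W P d M') {L : ℕ} {y : U}
    (h : ∀ g : A k d, br W.e (Dd d ^ L * g) * y ∈ N) : y ∈ N := by
  by_contra hy
  apply hO L
  intro g
  have h3 : N ⊔ Ideal.span {y} = ⊤ := by
    apply (Ideal.isMaximal_def.1 hN).2
    refine lt_of_le_of_ne le_sup_left fun h => hy ?_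
    rw [h]
    exact Ideal.mem_sup_right (Ideal.subset_span rfl)
  have h4 : (1 : U) ∈ N ⊔ Ideal.span {y} := by rw [h3]; trivial
  obtain ⟨n, hn, z, hz, h5⟩ := Submodule.mem_sup.1 h4
  obtain ⟨u, rfl⟩ := Submodule.mem_span_singleton.1 hz
  rw [hP]
  intro x
  have h6 : ∀ g : A k d, br W.e (Dd d ^ L * g) * 1 ∈ N := by
    intro g
    rw [← h5, mul_add, smul_eq_mul]
    exact N.add_mem (N.mul_mem_left _ hn) (stab W h u g)
  have h7 := stab W h6 x g
  rwa [mul_one] at h7

end fam

variable {k L : Type*} [Field k] [LieRing L] [LieAlgebra k L]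

theorem ext_ev (D : WittData k L) {N : Ideal (UniversalEnvelopingAlgebra k L)} (hN : N.IsMaximal)
    (P : TwoSidedIdeal (UniversalEnvelopingAlgebra k L)) (hP : ∀ a, a ∈ P ↔ ∀ x, a * x ∈ N)
    {d M0 : ℕ} (hO : OO (famU D) P (d + 1) M0) (hO' : ∀ M', ¬ OO (famU D) P d M')
    (f : Polynomial k) (h : ∀ n : ℤ, -1 ≤ n → ev D n f ∈ N) (n : ℤ) : ev D n f ∈ N := by
  obtain ⟨L, m, c, hc0, hs⟩ := shift_left (famU D) hO
  suffices H : ∀ (t : ℕ) (n : ℤ), -1 - (t : ℤ) ≤ n → ev D n f ∈ N from
    H (-1 - n).toNat n (by omega)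
  intro t
  induction t with
  | zero => intro n hn; exact h n (by simpa using hn)
  | succ t ih =>
    intro n hn
    by_cases hn' : -1 - (t : ℤ) ≤ n
    · exact ih n hn'
    refine torsion_free (famU D) (d := d) (L := L) hN P hP hO' fun g => ?_
    have hPN : ∀ x ∈ P, x ∈ N := fun x hx => by
      have := (hP x).1 hx 1
      rwa [mul_one] at this
    set g' : A k d := mono (fun _ => -((2 * L : ℕ) : ℤ)) * g
    have h1 : ∑ l ∈ Finset.range (m + 1), br (famU D).e (c l * Dd d ^ L * g') * ev D (n + l) f ∈ N := by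
      have h2 : ∑ l ∈ Finset.range (m + 1), br (famU D).e (c l * Dd d ^ L * g') * ev D (n + l) f =
          ∑ i ∈ f.support, f.coeff i • ∑ l ∈ Finset.range (m + 1),
            br (famU D).e (c l * Dd d ^ L * g') * (famU D).e (n + i + l) := by
        simp only [Finset.smul_sum]
        rw [Finset.sum_comm]
        refine Finset.sum_congr rfl fun l _ => ?_
        rw [ev_sum, Polynomial.sum_def, Finset.mul_sum]
        refine Finset.sum_congr rfl fun i _ => ?_
        rw [mul_smul_comm]
        have h3 : n + (l : ℤ) + (i : ℤ) = n + i + l := by ring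
        rw [h3]
        rfl
      rw [h2]
      refine N.sum_mem fun i _ => ?_
      rw [Algebra.smul_def]
      exact N.mul_mem_left _ (hPN _ (hs (n + i) g'))
    rw [Finset.sum_range_succ'] at h1
    have h4 : ∑ l ∈ Finset.range m, br (famU D).e (c (l + 1) * Dd d ^ L * g') * ev D (n + (l + 1 : ℕ)) f ∈ N := by
      refine N.sum_mem fun l _ => N.mul_mem_left _ (ih _ ?_)
      push_cast at hn ⊢
      omega
    have h5 := N.sub_mem h1 h4
    rw [add_sub_cancel_left, hc0, Nat.cast_zero, add_zero] at h5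
    have h6 : (E d ^ (2 * L) * Dd d ^ L * g' : A k d) = Dd d ^ L * g := by
      calc (E d ^ (2 * L) * Dd d ^ L * g' : A k d)
          = (E d ^ (2 * L) * mono (fun _ => -((2 * L : ℕ) : ℤ))) * (Dd d ^ L * g) := by
            simp only [g']; ring
        _ = _ := by rw [E_mul_inv, one_mul]
    rwa [h6] at h5

end R12
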